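import Pool.Agent.Q106.CircB
import Pool.Agent.Q106.CircC

/-!
# All circulant graphs `C_{2n}(x, 1, n)` are word-representable

A graph with a semi-transitive orientation is word-representable (Halldórsson, Kitaev, Pyatkin;
proved in `Pool/Agent/Q106/WordRep.lean`). We give such an orientation, or a word, for all `1 < x < n`.

* If `B` is odd, `B ≤ 2 n`, `B ≡ n (mod 3)` and `x + ⌊x B / 2n⌋ ≡ 1 (mod 3)`, then
  `i ↦ i + ⌊i B / 2n⌋ (mod 3)` is a proper colouring with three colours, and the edges can be oriented
  by the colours. There is such a `B` for all `3 ≤ x ≤ n - 2` with `2 x ≠ n`, with nine exceptions.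
* For `2 x = n`, for `x = 2` and for the nine exceptions the edges are oriented by a colouring with the
  colours `0, 1, 2, 3` in which no cycle of length four which does not span a complete graph has the
  colours `0, 1, 2, 3` in this order.
* For `x = n - 1` the graph is the cycle of length `n` with all vertices doubled (true twins).
-/

set_option autoImplicit false

namespace Pool.Agent.Results.MP_bde658_co.AllWordRepresentable

/-- The circulant graph `C_{2n}(x, 1, n)`. -/
def circulant (n x : ℕ) : SimpleGraph (ZMod (2 * n)) where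
  Adj a b := a ≠ b ∧ (b = a + 1 ∨ b = a - 1 ∨ b = a + x ∨ b = a - x ∨ b = a + n)
  symm := (Pool.Agent.Q106.Circ.circulant n x).symm
  loopless := (Pool.Agent.Q106.Circ.circulant n x).loopless

/-- The letters `a` and `b` alternate in the word `w`: if all the other letters are deleted from `w`,
then no two consecutive letters of the remaining word are equal. -/
def Alternate {V : Type*} [DecidableEq V] (w : List V) (a b : V) : Prop :=
  (w.filter (fun z => z = a ∨ z = b)).IsChain (· ≠ ·)

/-- `G` is word-representable: there is a word `w` in which every vertex occurs, such that distinct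
vertices `a` and `b` alternate in `w` if and only if they are adjacent. -/
def WordRepresentable {V : Type*} [DecidableEq V] (G : SimpleGraph V) : Prop :=
  ∃ w : List V, (∀ v, v ∈ w) ∧ ∀ a b, a ≠ b → (Alternate w a b ↔ G.Adj a b)

open Pool.Agent.Q106.Circ in
theorem main (n x : ℕ) (hx : 1 < x) (hxn : x < n) :
    Pool.Agent.Q106.WordRep.WordRepresentable (Pool.Agent.Q106.Circ.circulant n x) := by
  by_cases h1 : x + 1 = n
  · obtain rfl : x = n - 1 := by omega
    exact wr_pred (by omega)
  by_cases h2 : 2 * x = n
  · subst h2
    exact wr_half (by omega)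
  by_cases h3 : x = 2
  · subst h3
    have : n % 3 = 0 ∨ n % 3 = 1 ∨ n % 3 = 2 := by omega
    rcases this with h | h | h
    · by_cases h6 : n = 6
      · subst h6
        exact wr_6_2
      · exact wr_two_mod0 (by omega) h
    · exact wr_two_mod1 (by omega) h
    · exact wr_two_mod2 (by omega) h
  by_cases hs : (n, x) ∈ sporadic
  · simp only [sporadic, List.mem_cons, Prod.mk.injEq, List.not_mem_nil, or_false] at hs
    rcases hs with ⟨rfl, rfl⟩ | ⟨rfl, rfl⟩ | ⟨rfl, rfl⟩ | ⟨rfl, rfl⟩ | ⟨rfl, rfl⟩ | ⟨rfl, rfl⟩ |
      ⟨rfl, rfl⟩ | ⟨rfl, rfl⟩ | ⟨rfl, rfl⟩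
    · exact wr_8_3
    · exact wr_8_5
    · exact wr_10_6
    · exact wr_11_8
    · exact wr_12_5
    · exact wr_14_5
    · exact wr_14_8
    · exact wr_14_11
    · exact wr_20_11
  · obtain ⟨B, hB1, hB2, hB3, hB4⟩ := exists_good (n := n) (x := x) (by omega) (by omega) h2 hs
    exact balanced hx hxn B hB1 hB2 hB3 hB4

/-- **For all integers `1 < x < n` the circulant graph `C_{2n}(x, 1, n)` is word-representable.** -/
theorem result (n x : ℕ) (hx : 1 < x) (hxn : x < n) : WordRepresentable (circulant n x) :=
  main n x hx hxn

end Pool.Agent.Results.MP_bde658_co.AllWordRepresentable
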